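import Pool.Agent.WR4.Stmts
import Pool.Agent.Helper77_WR3.MCV

/-!
# WR4, row MCR: mean value at all real `x`
-/

set_option autoImplicit false

namespace Pool.Agent.WR4.H62

open Pool.Agent.WIR Pool.Agent.WR2 Pool.Agent.WR3 Pool.Agent.WR3.H77
open scoped BigOperators ENNReal Topology
open Filter

theorem rho (hC : CvgStmt) (hU : UsbStmt) (hT : TybStmt) :
    (∀ x, GG x ≠ ⊤) ∧ ∃ ρ : ℝ, Tendsto (fun x => (GG x).toReal / x) atTop (𝓝 ρ) ∧
      Tendsto (fun n : ℕ => (∑' l, en n l) / 2 ^ n) atTop (𝓝 (ρ - ρ / 2)) := by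
  obtain ⟨CT, hCT⟩ := hT
  have hen0 : ∀ n l, 0 ≤ en n l := fun n l => by unfold en; positivity
  have hsum : ∀ N, ∑' l, ENNReal.ofReal (en (N + 1) l) = ENNReal.ofReal (∑' l, en (N + 1) l) :=
    fun N => (ENNReal.ofReal_tsum_of_nonneg (hen0 (N + 1)) (hCT (N + 1) (by omega)).1).symm
  have hfin : ∀ N : ℕ, GG (2 ^ N) ≠ ⊤ := by
    intro N
    induction N with
    | zero => rw [mcv_one]; exact ENNReal.zero_ne_top
    | succ N ih =>
      rw [mcv_step, hsum]
      exact ENNReal.add_ne_top.mpr ⟨ih, ENNReal.ofReal_ne_top⟩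
  have hfin' : ∀ x : ℝ, GG x ≠ ⊤ := by
    intro x
    obtain ⟨N, hN⟩ := pow_unbounded_of_one_lt x (by norm_num : (1 : ℝ) < 2)
    exact ne_top_of_le_ne_top (hfin N) (mcv_mono hN.le)
  have hc1 : c1 ≠ ⊤ := ne_top_of_le_ne_top (hfin' 2) mcv_c1
  have hc2 : c2 ≠ ⊤ := ne_top_of_le_ne_top (hfin' 2) mcv_c2
  have hs0 : ∀ N, 0 ≤ ∑' l, en (N + 1) l := fun N => tsum_nonneg (hen0 (N + 1))
  have hstep : ∀ N : ℕ, (GG (2 ^ (N + 1))).toReal = (GG (2 ^ N)).toReal + ∑' l, en (N + 1) l := by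
    intro N
    rw [mcv_step, hsum, ENNReal.toReal_add (hfin N) ENNReal.ofReal_ne_top,
      ENNReal.toReal_ofReal (hs0 N)]
  have hbd : ∀ N : ℕ, (GG (2 ^ N)).toReal ≤ 84 * 2 ^ N := by
    intro N
    induction N with
    | zero => rw [mcv_one]; norm_num
    | succ N ih =>
      rw [hstep]
      have h1 := hU (N + 1) (by omega)
      rw [pow_succ] at h1 ⊢
      linarith
  have hrec : ∀ x : ℝ, 2 ≤ x → (GG x).toReal - (GG (x / 2)).toReal - (GG (3 * x / 2)).toReal / 3 =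
      c1.toReal - c2.toReal / 3 := by
    intro x hx
    have h1 : 3 * GG x + c2 = 3 * GG (x / 2) + 3 * c1 + GG (3 * x / 2) := by
      rw [mcv_split, mcv_A x hx, mcv_B x (by linarith), mul_add, add_assoc]
    have h2 := congrArg ENNReal.toReal h1
    have h3 : ∀ y : ℝ, (3 : ℝ≥0∞) * GG y ≠ ⊤ := fun y =>
      ENNReal.mul_ne_top (by norm_num) (hfin' y)
    have h4 : (3 : ℝ≥0∞) * c1 ≠ ⊤ := ENNReal.mul_ne_top (by norm_num) hc1
    rw [ENNReal.toReal_add (h3 x) hc2, ENNReal.toReal_add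
      (ENNReal.add_ne_top.mpr ⟨h3 (x / 2), h4⟩) (hfin' (3 * x / 2)),
      ENNReal.toReal_add (h3 (x / 2)) h4, ENNReal.toReal_mul, ENNReal.toReal_mul,
      ENNReal.toReal_mul] at h2
    have h5 : (3 : ℝ≥0∞).toReal = 3 := by simp
    rw [h5] at h2
    linarith
  obtain ⟨ρ, hρ, hlim⟩ := hC (fun x => (GG x).toReal)
    (fun x y _ hxy => ENNReal.toReal_mono (hfin' y) (mcv_mono hxy))
    (fun x => ENNReal.toReal_nonneg)
    ⟨168, fun x hx => by
      obtain ⟨N, h1, h2⟩ := exists_nat_pow_near hx (by norm_num : (1 : ℝ) < 2)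
      have h3 : (GG x).toReal ≤ (GG (2 ^ (N + 1))).toReal :=
        ENNReal.toReal_mono (hfin _) (mcv_mono h2.le)
      have h4 := hbd (N + 1)
      rw [pow_succ] at h4
      show (GG x).toReal ≤ 168 * x
      rw [pow_succ] at h3
      linarith⟩
    ⟨4 * (c1.toReal + c2.toReal), 2, fun x hx => by
      show |(GG x).toReal - (GG (x / 2)).toReal - (GG (3 * x / 2)).toReal / 3| ≤ _
      rw [hrec x hx]
      have p1 : 0 ≤ c1.toReal := ENNReal.toReal_nonneg
      have p2 : 0 ≤ c2.toReal := ENNReal.toReal_nonneg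
      have p3 : |c1.toReal - c2.toReal / 3| ≤ c1.toReal + c2.toReal := by
        rw [abs_le]; constructor <;> linarith
      have p4 : 0 < Real.log x := Real.log_pos (by linarith)
      have p5 : Real.log x ≤ 2 * Real.sqrt x := by
        have q1 : 0 < Real.sqrt x := Real.sqrt_pos.mpr (by linarith)
        have q2 := Real.log_le_sub_one_of_pos q1
        rw [Real.log_sqrt (by linarith)] at q2
        linarith
      have p6 : Real.log x ^ 2 ≤ 4 * x := by
        have q3 : Real.log x ^ 2 ≤ (2 * Real.sqrt x) ^ 2 := pow_le_pow_left₀ p4.le p5 2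
        rw [mul_pow, Real.sq_sqrt (by linarith)] at q3
        linarith
      refine p3.trans ?_
      rw [le_div_iff₀ (by positivity)]
      nlinarith⟩
  have hpow : Tendsto (fun n : ℕ => (2 : ℝ) ^ n) atTop atTop :=
    tendsto_pow_atTop_atTop_of_one_lt (by norm_num)
  have hl1 : Tendsto (fun n : ℕ => (GG (2 ^ n)).toReal / 2 ^ n) atTop (𝓝 ρ) := hlim.comp hpow
  have hl2 : Tendsto (fun n : ℕ => (GG (2 ^ (n + 1))).toReal / 2 ^ (n + 1) -
      (GG (2 ^ n)).toReal / 2 ^ n / 2) atTop (𝓝 (ρ - ρ / 2)) :=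
    ((tendsto_add_atTop_iff_nat (f := fun n : ℕ => (GG (2 ^ n)).toReal / 2 ^ n) 1).mpr hl1).sub
      (hl1.div_const 2)
  refine ⟨hfin', ρ, hlim, ?_⟩
  rw [← tendsto_add_atTop_iff_nat 1]
  refine hl2.congr fun n => ?_
  rw [hstep, pow_succ]
  have : (0 : ℝ) < 2 ^ n := by positivity
  field_simp
  ring


theorem gg_big {τ l : ℕ} (h : τ < l) : gg τ l = 0 := by
  unfold gg
  rw [Nat.choose_eq_zero_of_lt h]
  simp

theorem five_log : 5 * Real.log 3 ≤ 8 * Real.log 2 := by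
  have h1 : Real.log ((3 : ℝ) ^ 5) ≤ Real.log ((2 : ℝ) ^ 8) :=
    Real.log_le_log (by norm_num) (by norm_num)
  rw [Real.log_pow, Real.log_pow] at h1
  norm_num at h1
  exact h1

theorem log_of {τ l : ℕ} {K : ℝ} (hK : 0 < K) (h : (2 : ℝ) ^ τ ≤ K * 3 ^ l) :
    (τ : ℝ) * Real.log 2 ≤ Real.log K + l * Real.log 3 := by
  have h1 := Real.log_le_log (by positivity) h
  rwa [Real.log_mul hK.ne' (by positivity), Real.log_pow, Real.log_pow] at h1

/-- the sum over a set of large `l` -/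
theorem hb (hH : HoeStmt) (τ : ℕ) (K : ℝ) (hK : 1 ≤ K) (P : ℕ → Prop) [DecidablePred P]
    (hP : ∀ l, P l → (τ : ℝ) / 5 ≤ 2 * (l : ℝ) - τ ∧ (2 : ℝ) ^ τ ≤ K * 3 ^ l) :
    ∑' l : ℕ, (if P l then gg τ l else 0) ≤ ENNReal.ofReal (K * Real.exp (-((τ : ℝ) / 50))) := by
  have h1 : ∑' l : ℕ, (if P l then gg τ l else 0) =
      ∑ l ∈ Finset.range (τ + 1), (if P l then gg τ l else 0) := by
    refine tsum_eq_sum fun l hl => ?_
    rw [Finset.mem_range, not_lt] at hl
    rw [gg_big (by omega)]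
    simp
  rw [h1]
  rcases Nat.eq_zero_or_pos τ with hτ | hτ
  · subst hτ
    rw [zero_add, Finset.sum_range_one]
    have h2 : (if P 0 then gg 0 0 else 0) ≤ 1 := by
      split_ifs
      · simp [gg]
      · exact zero_le
    refine h2.trans ?_
    rw [← ENNReal.ofReal_one]
    refine ENNReal.ofReal_le_ofReal ?_
    simpa using hK
  · have hτ' : (0 : ℝ) < τ := by exact_mod_cast hτ
    have h2 := (hH τ ((τ : ℝ) / 5) hτ (by positivity)).1
    have h3 : ∑ l ∈ Finset.range (τ + 1), (if P l then gg τ l else 0) ≤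
        ∑ l ∈ Finset.range (τ + 1), ENNReal.ofReal (if (τ : ℝ) / 5 ≤ 2 * (l : ℝ) - τ then
          K / 2 ^ τ * (τ.choose l : ℝ) else 0) := by
      refine Finset.sum_le_sum fun l _ => ?_
      by_cases hl : P l
      · obtain ⟨h4, h5⟩ := hP l hl
        rw [if_pos hl, if_pos h4]
        unfold gg
        refine ENNReal.ofReal_le_ofReal ?_
        rw [div_mul_eq_mul_div, div_le_div_iff₀ (by positivity) (by positivity)]
        have h6 : (0 : ℝ) ≤ (τ.choose l : ℝ) := Nat.cast_nonneg _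
        nlinarith
      · rw [if_neg hl]
        exact zero_le
    refine h3.trans ?_
    rw [← ENNReal.ofReal_sum_of_nonneg (fun l _ => by split_ifs <;> positivity)]
    refine ENNReal.ofReal_le_ofReal ?_
    rw [← Finset.sum_filter, ← Finset.mul_sum]
    have h7 : ((τ : ℝ) / 5) ^ 2 / (2 * τ) = (τ : ℝ) / 50 := by
      field_simp
      ring
    rw [h7] at h2
    calc K / 2 ^ τ * ∑ r ∈ (Finset.range (τ + 1)).filter
          (fun r : ℕ => (τ : ℝ) / 5 ≤ 2 * (r : ℝ) - τ), (τ.choose r : ℝ)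
        ≤ K / 2 ^ τ * (2 ^ τ * Real.exp (-((τ : ℝ) / 50))) :=
          mul_le_mul_of_nonneg_left h2 (by positivity)
      _ = K * Real.exp (-((τ : ℝ) / 50)) := by
          field_simp

/-- the tail of the exponential series -/
noncomputable def ph (t τ : ℕ) : ℝ := if t ≤ τ then Real.exp (-((τ : ℝ) / 50)) else 0

theorem exp_sum : Summable (fun τ : ℕ => Real.exp (-((τ : ℝ) / 50))) := by
  have h1 : (fun τ : ℕ => Real.exp (-((τ : ℝ) / 50))) = fun τ : ℕ => (Real.exp (-(1 / 50))) ^ τ := by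
    funext τ
    rw [← Real.exp_nat_mul]
    congr 1
    ring
  rw [h1]
  exact summable_geometric_of_lt_one (Real.exp_pos _).le (by rw [Real.exp_lt_one_iff]; norm_num)

theorem ph_nonneg (t τ : ℕ) : 0 ≤ ph t τ := by
  unfold ph
  split_ifs
  · exact (Real.exp_pos _).le
  · exact le_rfl

theorem ph_sum (t : ℕ) : Summable (ph t) := by
  refine Summable.of_nonneg_of_le (ph_nonneg t) (fun τ => ?_) exp_sum
  unfold ph
  split_ifs
  · exact le_rfl
  · exact (Real.exp_pos _).le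

theorem ph_tail (t : ℕ) : ∑' τ, ph t τ = ∑' k : ℕ, Real.exp (-(((k + t : ℕ) : ℝ) / 50)) := by
  rw [← (ph_sum t).sum_add_tsum_nat_add t]
  have h1 : ∑ i ∈ Finset.range t, ph t i = 0 := by
    refine Finset.sum_eq_zero fun i hi => ?_
    rw [Finset.mem_range] at hi
    unfold ph
    rw [if_neg (by omega)]
  rw [h1, zero_add]
  refine tsum_congr fun k => ?_
  unfold ph
  rw [if_pos (by omega)]

theorem ph_lim : Tendsto (fun t : ℕ => ∑' τ, ph t τ) atTop (𝓝 0) := by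
  have h1 := tendsto_sum_nat_add (fun τ : ℕ => Real.exp (-((τ : ℝ) / 50)))
  refine h1.congr fun t => ?_
  rw [ph_tail]

open Classical in
theorem TM_eq (t : ℕ) (x : ℝ) : ENNReal.ofReal (TM t x) =
    ∑' l : ℕ, ∑' τ : ℕ, if (τ < t ∧ (2 : ℝ) ^ τ ≤ x * 3 ^ l) then gg τ l else 0 := by
  rw [ENNReal.tsum_comm]
  unfold TM
  rw [ENNReal.ofReal_sum_of_nonneg (fun τ _ => Finset.sum_nonneg fun l _ => by
    split_ifs <;> positivity)]
  rw [tsum_eq_sum (s := Finset.range t) (fun τ hτ => by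
    rw [Finset.mem_range] at hτ
    rw [ENNReal.tsum_eq_zero]
    intro l
    rw [if_neg (fun h => hτ h.1)])]
  refine Finset.sum_congr rfl fun τ hτ => ?_
  rw [Finset.mem_range] at hτ
  rw [ENNReal.ofReal_sum_of_nonneg (fun l _ => by split_ifs <;> positivity)]
  rw [tsum_eq_sum (s := Finset.range (τ + 1)) (fun l hl => by
    rw [Finset.mem_range, not_lt] at hl
    rw [gg_big (by omega)]
    simp)]
  refine Finset.sum_congr rfl fun l _ => ?_
  by_cases h : (2 : ℝ) ^ τ ≤ x * 3 ^ l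
  · rw [if_pos h, if_pos ⟨hτ, h⟩]
    rfl
  · rw [if_neg h, if_neg (fun h' => h h'.2)]
    simp

theorem upper (hH : HoeStmt) (t : ℕ) (x : ℝ) :
    ENNReal.ofReal (TM t x) ≤ GG x + ENNReal.ofReal (∑' τ : ℕ, Real.exp (-((τ : ℝ) / 50))) := by
  classical
  have h1 : ∑' τ : ℕ, ∑' l : ℕ, (if (2 : ℝ) ^ τ ≤ 3 ^ l then gg τ l else 0) ≤
      ENNReal.ofReal (∑' τ : ℕ, Real.exp (-((τ : ℝ) / 50))) := by
    rw [ENNReal.ofReal_tsum_of_nonneg (fun τ => (Real.exp_pos _).le) exp_sum]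
    refine ENNReal.tsum_le_tsum fun τ => ?_
    have h2 := hb hH τ 1 le_rfl (fun l => (2 : ℝ) ^ τ ≤ 3 ^ l) (fun l hl => by
      rw [one_mul]
      refine ⟨?_, hl⟩
      have h3 := log_of (K := 1) one_pos (by rw [one_mul]; exact hl)
      rw [Real.log_one, zero_add] at h3
      have h4 := five_log
      have h5 : 0 < Real.log 2 := Real.log_pos (by norm_num)
      have h6 : (0 : ℝ) ≤ l := Nat.cast_nonneg l
      have h7 : (5 * (τ : ℝ)) * Real.log 2 ≤ (8 * (l : ℝ)) * Real.log 2 := by nlinarith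
      have h8 := le_of_mul_le_mul_right h7 h5
      have h9 : (0 : ℝ) ≤ τ := Nat.cast_nonneg τ
      linarith)
    rwa [one_mul] at h2
  refine le_trans ?_ (add_le_add_right h1 (GG x))
  rw [ENNReal.tsum_comm, TM_eq]
  unfold GG
  rw [← ENNReal.tsum_add]
  refine ENNReal.tsum_le_tsum fun l => ?_
  rw [← ENNReal.tsum_add]
  refine ENNReal.tsum_le_tsum fun τ => ?_
  by_cases h : (τ < t ∧ (2 : ℝ) ^ τ ≤ x * 3 ^ l)
  · rw [if_pos h]
    by_cases h' : (2 : ℝ) ^ τ ≤ 3 ^ l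
    · rw [if_pos h']
      exact le_add_self
    · rw [if_pos ⟨not_le.1 h', h.2⟩]
      exact le_self_add
  · rw [if_neg h]
    exact zero_le

theorem lower (hH : HoeStmt) (t : ℕ) (x : ℝ) (hx : 1 ≤ x)
    (ht : 60 * Real.log x ≤ t * Real.log 2) :
    GG x ≤ ENNReal.ofReal (TM t x) + ENNReal.ofReal (x * ∑' τ : ℕ, ph t τ) := by
  classical
  have h1 : ∑' τ : ℕ, ∑' l : ℕ, (if (t ≤ τ ∧ (2 : ℝ) ^ τ ≤ x * 3 ^ l) then gg τ l else 0) ≤
      ENNReal.ofReal (x * ∑' τ : ℕ, ph t τ) := by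
    rw [← tsum_mul_left, ENNReal.ofReal_tsum_of_nonneg
      (fun τ => mul_nonneg (by linarith) (ph_nonneg t τ)) ((ph_sum t).mul_left x)]
    refine ENNReal.tsum_le_tsum fun τ => ?_
    by_cases hτ : t ≤ τ
    · have h2 := hb hH τ x hx (fun l => (t ≤ τ ∧ (2 : ℝ) ^ τ ≤ x * 3 ^ l)) (fun l hl => by
        refine ⟨?_, hl.2⟩
        have h3 := log_of (by linarith) hl.2
        have h4 := five_log
        have h5 : 0 < Real.log 2 := Real.log_pos (by norm_num)
        have h6 : (0 : ℝ) ≤ l := Nat.cast_nonneg l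
        have h10 : (t : ℝ) ≤ τ := by exact_mod_cast hτ
        have h11 : 60 * Real.log x ≤ τ * Real.log 2 :=
          ht.trans (mul_le_mul_of_nonneg_right h10 h5.le)
        have h12 : (l : ℝ) * (5 * Real.log 3) ≤ l * (8 * Real.log 2) :=
          mul_le_mul_of_nonneg_left h4 h6
        have h7 : (59 * (τ : ℝ)) * Real.log 2 ≤ (96 * (l : ℝ)) * Real.log 2 := by linarith
        have h8 := le_of_mul_le_mul_right h7 h5
        have h9 : (0 : ℝ) ≤ τ := Nat.cast_nonneg τ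
        linarith)
      unfold ph
      rw [if_pos hτ]
      exact h2
    · have h2 : ∑' l : ℕ, (if (t ≤ τ ∧ (2 : ℝ) ^ τ ≤ x * 3 ^ l) then gg τ l else 0) = 0 := by
        rw [ENNReal.tsum_eq_zero]
        intro l
        rw [if_neg (fun h => hτ h.1)]
      rw [h2]
      exact zero_le
  refine le_trans ?_ (add_le_add_right h1 (ENNReal.ofReal (TM t x)))
  rw [ENNReal.tsum_comm, TM_eq]
  unfold GG
  rw [← ENNReal.tsum_add]
  refine ENNReal.tsum_le_tsum fun l => ?_
  rw [← ENNReal.tsum_add]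
  refine ENNReal.tsum_le_tsum fun τ => ?_
  by_cases h : ((3 : ℝ) ^ l < 2 ^ τ ∧ (2 : ℝ) ^ τ ≤ x * 3 ^ l)
  · rw [if_pos h]
    by_cases h' : τ < t
    · rw [if_pos ⟨h', h.2⟩]
      exact le_self_add
    · rw [if_pos (show t ≤ τ ∧ (2 : ℝ) ^ τ ≤ x * 3 ^ l from ⟨not_lt.1 h', h.2⟩)]
      exact le_add_self
  · rw [if_neg h]
    exact zero_le

theorem TM_nonneg (t : ℕ) (x : ℝ) : 0 ≤ TM t x := by
  unfold TM
  exact Finset.sum_nonneg fun τ _ => Finset.sum_nonneg fun l _ => by split_ifs <;> positivity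

theorem mcr (hC : CvgStmt) (hU : UsbStmt) (hT : TybStmt) (hH : HoeStmt) : McrStmt := by
  obtain ⟨hfin, ρ, hlim, hsg⟩ := rho hC hU hT
  intro σ hσ ε hε
  have hρ : ρ = 2 * σ := by
    have h1 := tendsto_nhds_unique hsg hσ.2
    linarith
  obtain ⟨A, hA⟩ : ∃ A, A = ∑' τ : ℕ, Real.exp (-((τ : ℝ) / 50)) := ⟨_, rfl⟩
  have hA0 : 0 ≤ A := by
    rw [hA]
    exact tsum_nonneg fun τ => (Real.exp_pos _).le
  -- choice of the constants
  obtain ⟨x1, hx1⟩ := eventually_atTop.1 (Metric.tendsto_nhds.1 hlim (ε / 2) (by positivity))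
  obtain ⟨t0, ht0⟩ := eventually_atTop.1 (Metric.tendsto_nhds.1 ph_lim (ε / 2) (by positivity))
  refine ⟨max 1 (max x1 (max (2 * A / ε) (Real.exp (t0 * Real.log 2 / 60)))), le_max_left _ _,
    fun x t hx ht => ?_⟩
  have hx1' : x1 ≤ x := ((le_max_left _ _).trans (le_max_right _ _)).trans hx
  have hxone : 1 ≤ x := (le_max_left _ _).trans hx
  have hx2 : 2 * A / ε ≤ x :=
    (((le_max_left _ _).trans (le_max_right _ _)).trans (le_max_right _ _)).trans hx
  have hx3 : Real.exp (t0 * Real.log 2 / 60) ≤ x :=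
    (((le_max_right _ _).trans (le_max_right _ _)).trans (le_max_right _ _)).trans hx
  have hxpos : 0 < x := by linarith
  have hl2 : 0 < Real.log 2 := Real.log_pos (by norm_num)
  have htt : t0 ≤ t := by
    have h1 : t0 * Real.log 2 / 60 ≤ Real.log x := by
      rw [Real.le_log_iff_exp_le hxpos]
      exact hx3
    have h2 : (t0 : ℝ) * Real.log 2 ≤ t * Real.log 2 := by linarith
    exact_mod_cast le_of_mul_le_mul_right h2 hl2
  have hB := ht0 t htt
  rw [Real.dist_eq, sub_zero] at hB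
  have hB0 : 0 ≤ ∑' τ, ph t τ := tsum_nonneg (ph_nonneg t)
  rw [abs_of_nonneg hB0] at hB
  have hF := hx1 x hx1'
  rw [Real.dist_eq] at hF
  have hF' := abs_lt.1 hF
  have hup : TM t x ≤ (GG x).toReal + A := by
    have h1 := upper hH t x
    rw [← hA] at h1
    have h2 := ENNReal.toReal_mono (ENNReal.add_ne_top.2 ⟨hfin x, ENNReal.ofReal_ne_top⟩) h1
    rwa [ENNReal.toReal_ofReal (TM_nonneg t x), ENNReal.toReal_add (hfin x) ENNReal.ofReal_ne_top,
      ENNReal.toReal_ofReal hA0] at h2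
  have hlo : (GG x).toReal ≤ TM t x + x * ∑' τ, ph t τ := by
    have h1 := lower hH t x hxone ht
    have h2 := ENNReal.toReal_mono
      (ENNReal.add_ne_top.2 ⟨ENNReal.ofReal_ne_top, ENNReal.ofReal_ne_top⟩) h1
    rwa [ENNReal.toReal_add ENNReal.ofReal_ne_top ENNReal.ofReal_ne_top,
      ENNReal.toReal_ofReal (TM_nonneg t x),
      ENNReal.toReal_ofReal (mul_nonneg hxpos.le hB0)] at h2
  have hAx : A ≤ ε / 2 * x := by
    rw [div_le_iff₀ hε] at hx2
    linarith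
  have hBx : x * ∑' τ, ph t τ ≤ ε / 2 * x := by
    have := mul_le_mul_of_nonneg_left hB.le hxpos.le
    linarith
  have h3 : (GG x).toReal < (ρ + ε / 2) * x := by
    have h4 : (GG x).toReal / x < ρ + ε / 2 := by linarith [hF'.2]
    rwa [div_lt_iff₀ hxpos] at h4
  have h5 : (ρ - ε / 2) * x < (GG x).toReal := by
    have h4 : ρ - ε / 2 < (GG x).toReal / x := by linarith [hF'.1]
    rwa [lt_div_iff₀ hxpos] at h4
  rw [hρ] at h3 h5
  rw [abs_le]
  constructor
  · nlinarith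
  · nlinarith

end Pool.Agent.WR4.H62
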